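import Mathlib
import Pool.Agent.Helper27.Har.P_global_ode

/-!
# Partial oscillator death coexisting with partial locking in the Winfree model
-/

set_option autoImplicit false

open Filter Topology Set

namespace Pool.Agent.Results.MP_3a3e96_an.DeathAndLocking

/-- `θ` is a solution of the sinusoidal Winfree model on `[0, ∞)` with frequencies `ω`, coupling
strength `κ` and initial datum `θ₀`. -/
def IsSolution {N : ℕ} (κ : ℝ) (ω θ₀ : Fin N → ℝ) (θ : ℝ → Fin N → ℝ) : Prop :=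
  θ 0 = θ₀ ∧ ∀ t, 0 ≤ t → ∀ i, HasDerivWithinAt (fun τ => θ τ i)
    (ω i - κ / N * ∑ j, (1 + Real.cos (θ t j)) * Real.sin (θ t i)) (Ici 0) t

/-- `B`-partial oscillator death. -/
def Death {N : ℕ} (B : Finset (Fin N)) (θ : ℝ → Fin N → ℝ) : Prop :=
  ∀ i ∈ B, ∃ M : ℝ, ∀ t, 0 ≤ t → |θ t i| ≤ M

/-- `C`-partial oscillator locking. -/
def Locking {N : ℕ} (C : Finset (Fin N)) (θ : ℝ → Fin N → ℝ) : Prop :=
  (∀ i ∈ C, ∀ j ∈ C, ∃ M : ℝ, ∀ t, 0 ≤ t → |θ t i - θ t j| ≤ M) ∧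
    ∀ i ∈ C, ¬ Tendsto (fun t => θ t i / t) atTop (𝓝 0)

/-- The property of the parameters `ρ₁, ρ₂, γ, κ` asked for in the question. -/
def Good (ρ₁ ρ₂ γ κ : ℝ) : Prop :=
  ∀ (N : ℕ) (ω : Fin N → ℝ) (B C : Finset (Fin N)), 1 ≤ N → Disjoint B C →
    ρ₁ * N ≤ B.card → ρ₂ * N ≤ C.card → (∀ i ∈ B, ω i ∈ Icc (-γ) γ) →
    (∀ i ∈ C, ω i ∈ Icc (1 - γ) (1 + γ)) →
    ∃ θ₀ : Fin N → ℝ, (∃ θ, IsSolution κ ω θ₀ θ) ∧
      ∀ θ, IsSolution κ ω θ₀ θ → Death B θ ∧ Locking C θ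

/-! ### A bootstrap lemma -/

lemma bootstrap {ι : Type*} [Finite ι] (f : ι → ℝ → ℝ) (c : ℝ)
    (hf : ∀ i, ContinuousOn (f i) (Ici 0)) (h0 : ∀ i, f i 0 < c)
    (h : ∀ t, 0 ≤ t → (∀ i, ∀ s ∈ Icc 0 t, f i s ≤ c) → ∀ i, f i t < c) :
    ∀ t, 0 ≤ t → ∀ i, f i t < c := by
  by_contra hcon
  push Not at hcon
  obtain ⟨t₁, ht₁, i₁, hi₁⟩ := hcon
  set bad : Set ℝ := ⋃ i, Ici 0 ∩ f i ⁻¹' Ici c with hbad
  have hclosed : IsClosed bad :=
    isClosed_iUnion_of_finite fun i => (hf i).preimage_isClosed_of_isClosed isClosed_Ici isClosed_Ici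
  have hne : bad.Nonempty := ⟨t₁, mem_iUnion.2 ⟨i₁, ht₁, hi₁⟩⟩
  have hbdd : BddBelow bad := ⟨0, fun t ht => by
    obtain ⟨i, hi⟩ := mem_iUnion.1 ht
    exact hi.1⟩
  set T := sInf bad with hT
  have hTmem : T ∈ bad := hclosed.csInf_mem hne hbdd
  obtain ⟨i₀, hT0, hi₀⟩ := mem_iUnion.1 hTmem
  have hT0' : 0 ≤ T := hT0
  have hlt : ∀ s, 0 ≤ s → s < T → ∀ i, f i s < c := by
    intro s hs hsT i
    by_contra hc
    push Not at hc
    exact absurd (csInf_le hbdd (mem_iUnion.2 ⟨i, hs, hc⟩)) (not_le.2 hsT)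
  have hle : ∀ i, f i T ≤ c := by
    intro i
    by_contra hc
    push Not at hc
    have hcont : ContinuousOn (f i) (Icc 0 T) := (hf i).mono fun x hx => hx.1
    obtain ⟨s, hs, hsc⟩ := intermediate_value_Icc hT0' hcont ⟨(h0 i).le, hc.le⟩
    rcases hs.2.lt_or_eq with h1 | h1
    · exact absurd hsc (hlt s hs.1 h1 i).ne
    · rw [h1] at hsc
      linarith
  have := h T hT0' (fun i s hs => by
    rcases hs.2.lt_or_eq with h1 | h1
    · exact (hlt s hs.1 h1 i).le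
    · rw [h1]; exact hle i) i₀
  exact absurd hi₀ (not_le.2 this)

/-- A scalar barrier lemma. -/
lemma barrier {y y' : ℝ → ℝ} {c T : ℝ} (hT : 0 ≤ T)
    (hy : ∀ t ∈ Icc 0 T, HasDerivWithinAt y (y' t) (Ici 0) t) (h0 : y 0 ≤ c)
    (h : ∀ t ∈ Icc 0 T, y t = c → y' t < 0) : y T ≤ c := by
  refine image_le_of_deriv_right_lt_deriv_boundary (f := y) (f' := y') (a := 0) (b := T)
    (B := fun _ => c) (B' := fun _ => 0) ?_ ?_ h0 (fun x => hasDerivAt_const x c) ?_ ⟨hT, le_rfl⟩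
  · intro t ht
    exact ((hy t ht).continuousWithinAt).mono fun x hx => hx.1
  · intro t ht
    exact (hy t ⟨ht.1, ht.2.le⟩).mono (Ici_subset_Ici.2 ht.1)
  · intro t ht hc
    exact h t ⟨ht.1, ht.2.le⟩ hc

/-! ### The mean field -/

/-- The mean field. -/
noncomputable def mf {N : ℕ} (x : Fin N → ℝ) : ℝ := (∑ j, (1 + Real.cos (x j))) / N

lemma rhs_eq {N : ℕ} (κ : ℝ) (ω x : Fin N → ℝ) (i : Fin N) :
    ω i - κ / N * ∑ j, (1 + Real.cos (x j)) * Real.sin (x i) =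
      ω i - κ * mf x * Real.sin (x i) := by
  rw [mf, ← Finset.sum_mul]
  ring

lemma mf_nonneg {N : ℕ} (x : Fin N → ℝ) : 0 ≤ mf x := by
  unfold mf
  apply div_nonneg _ (Nat.cast_nonneg _)
  exact Finset.sum_nonneg fun j _ => by linarith [Real.neg_one_le_cos (x j)]

lemma mf_le_two {N : ℕ} (hN : 1 ≤ N) (x : Fin N → ℝ) : mf x ≤ 2 := by
  have hN' : (0 : ℝ) < N := by exact_mod_cast hN
  unfold mf
  rw [div_le_iff₀ hN']
  calc ∑ j, (1 + Real.cos (x j)) ≤ ∑ _j : Fin N, (2 : ℝ) :=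
        Finset.sum_le_sum fun j _ => by linarith [Real.cos_le_one (x j)]
    _ = 2 * N := by simp [mul_comm]

/-- Lower bound of the mean field. -/
lemma mf_ge {N : ℕ} (hN : 1 ≤ N) (x : Fin N → ℝ) (B : Finset (Fin N)) {ρ₁ : ℝ}
    (hB : ρ₁ * N ≤ B.card) (hx : ∀ i ∈ B, |x i| ≤ 1) : ρ₁ ≤ mf x := by
  have hN' : (0 : ℝ) < N := by exact_mod_cast hN
  unfold mf
  rw [le_div_iff₀ hN']
  calc ρ₁ * N ≤ B.card := hB
    _ = ∑ _j ∈ B, (1 : ℝ) := by simp
    _ ≤ ∑ j ∈ B, (1 + Real.cos (x j)) := by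
      refine Finset.sum_le_sum fun j hj => ?_
      have h1 := Real.one_sub_sq_div_two_le_cos (x := x j)
      have h2 : x j ^ 2 ≤ 1 := by
        rw [← sq_abs]
        have := hx j hj
        have := abs_nonneg (x j)
        nlinarith
      linarith
    _ ≤ ∑ j, (1 + Real.cos (x j)) := by
      refine Finset.sum_le_sum_of_subset_of_nonneg (Finset.subset_univ _) fun j _ _ => ?_
      linarith [Real.neg_one_le_cos (x j)]

/-- The mean field when `B` is at rest and `C` is locked. -/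
lemma mf_approx {N : ℕ} (hN : 1 ≤ N) (x : Fin N → ℝ) {B C : Finset (Fin N)} (hBC : Disjoint B C)
    {ρ₁ ρ₂ β Δ φ : ℝ} (hΔ : 0 ≤ Δ) (hB : ρ₁ * N ≤ B.card) (hC : ρ₂ * N ≤ C.card)
    (hxB : ∀ i ∈ B, |x i| ≤ β) (hxC : ∀ i ∈ C, |x i - φ| ≤ Δ) :
    |mf x - (2 * (B.card / N) + C.card / N * (1 + Real.cos φ))| ≤
      β ^ 2 / 2 + Δ + 2 * (1 - ρ₁ - ρ₂) := by
  have hN' : (0 : ℝ) < N := by exact_mod_cast hN
  have hsplit : ∑ j, (1 + Real.cos (x j)) = ∑ j ∈ B, (1 + Real.cos (x j)) +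
      ∑ j ∈ C, (1 + Real.cos (x j)) + ∑ j ∈ (B ∪ C)ᶜ, (1 + Real.cos (x j)) := by
    rw [← Finset.sum_union hBC, Finset.sum_add_sum_compl]
  have hcard : ((B ∪ C)ᶜ.card : ℝ) = N - B.card - C.card := by
    have h1 : (B ∪ C).card + (B ∪ C)ᶜ.card = N := by
      rw [Finset.card_add_card_compl, Fintype.card_fin]
    rw [Finset.card_union_of_disjoint hBC] at h1
    have : (B.card : ℝ) + C.card + (B ∪ C)ᶜ.card = N := by exact_mod_cast h1
    linarith
  have hB1 : ∑ j ∈ B, (1 + Real.cos (x j)) ≤ 2 * B.card := by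
    calc ∑ j ∈ B, (1 + Real.cos (x j)) ≤ ∑ _j ∈ B, (2 : ℝ) :=
          Finset.sum_le_sum fun j _ => by linarith [Real.cos_le_one (x j)]
      _ = 2 * B.card := by simp [mul_comm]
  have hB2 : (2 - β ^ 2 / 2) * B.card ≤ ∑ j ∈ B, (1 + Real.cos (x j)) := by
    calc (2 - β ^ 2 / 2) * B.card = ∑ _j ∈ B, (2 - β ^ 2 / 2) := by simp; ring
      _ ≤ _ := by
        refine Finset.sum_le_sum fun j hj => ?_
        have h1 := Real.one_sub_sq_div_two_le_cos (x := x j)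
        have h2 : x j ^ 2 ≤ β ^ 2 := by
          rw [← sq_abs]
          have := hxB j hj
          have := abs_nonneg (x j)
          gcongr
        linarith
  have hC0 : ∀ j ∈ C, |Real.cos (x j) - Real.cos φ| ≤ Δ := fun j hj =>
    (Real.abs_cos_sub_cos_le _ _).trans (hxC j hj)
  have hC1 : ∑ j ∈ C, (1 + Real.cos (x j)) ≤ C.card * (1 + Real.cos φ) + C.card * Δ := by
    calc ∑ j ∈ C, (1 + Real.cos (x j)) ≤ ∑ _j ∈ C, (1 + Real.cos φ + Δ) :=
          Finset.sum_le_sum fun j hj => by linarith [(abs_le.1 (hC0 j hj)).2]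
      _ = _ := by simp; ring
  have hC2 : C.card * (1 + Real.cos φ) - C.card * Δ ≤ ∑ j ∈ C, (1 + Real.cos (x j)) := by
    calc C.card * (1 + Real.cos φ) - C.card * Δ = ∑ _j ∈ C, (1 + Real.cos φ - Δ) := by
          simp; ring
      _ ≤ _ := Finset.sum_le_sum fun j hj => by linarith [(abs_le.1 (hC0 j hj)).1]
  have hR1 : ∑ j ∈ (B ∪ C)ᶜ, (1 + Real.cos (x j)) ≤ 2 * (N - B.card - C.card) := by
    calc ∑ j ∈ (B ∪ C)ᶜ, (1 + Real.cos (x j)) ≤ ∑ _j ∈ (B ∪ C)ᶜ, (2 : ℝ) :=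
          Finset.sum_le_sum fun j _ => by linarith [Real.cos_le_one (x j)]
      _ = 2 * (N - B.card - C.card) := by rw [← hcard]; simp [mul_comm]
  have hR2 : 0 ≤ ∑ j ∈ (B ∪ C)ᶜ, (1 + Real.cos (x j)) :=
    Finset.sum_nonneg fun j _ => by linarith [Real.neg_one_le_cos (x j)]
  have hR3 : (0 : ℝ) ≤ N - B.card - C.card := by rw [← hcard]; positivity
  have hR4 : (N : ℝ) - B.card - C.card ≤ N * (1 - ρ₁ - ρ₂) := by nlinarith
  have hb : (B.card : ℝ) ≤ N := by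
    have : (0 : ℝ) ≤ C.card := by positivity
    linarith
  have hc : (C.card : ℝ) ≤ N := by
    have : (0 : ℝ) ≤ B.card := by positivity
    linarith
  have e : mf x - (2 * (B.card / N) + C.card / N * (1 + Real.cos φ)) =
      (∑ j, (1 + Real.cos (x j)) - (2 * B.card + C.card * (1 + Real.cos φ))) / N := by
    unfold mf
    field_simp
  rw [e, abs_div, abs_of_pos hN', div_le_iff₀ hN', hsplit]
  have hb' : β ^ 2 / 2 * B.card ≤ β ^ 2 / 2 * N := by gcongr
  have hc' : C.card * Δ ≤ N * Δ := by gcongr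
  have h1 : 0 ≤ β ^ 2 / 2 * N := by positivity
  have h2 : 0 ≤ N * Δ := by positivity
  rw [abs_le]
  constructor <;> nlinarith

/-! ### Algebra of the contraction estimate -/

/-- The exponent of the weight. -/
noncomputable def gw (κ r₁ r₂ φ : ℝ) : ℝ :=
  κ * (2 * r₁ + r₂) * Real.sin φ + κ * r₂ / 4 * Real.sin (2 * φ)

/-- Its derivative. -/
noncomputable def gw' (κ r₁ r₂ φ : ℝ) : ℝ :=
  κ * (2 * r₁ + r₂) * Real.cos φ + κ * r₂ / 2 * Real.cos (2 * φ)

lemma hasDerivAt_gw (κ r₁ r₂ φ : ℝ) : HasDerivAt (gw κ r₁ r₂) (gw' κ r₁ r₂ φ) φ := by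
  unfold gw
  have h1 : HasDerivAt (fun x : ℝ => 2 * x) 2 φ := by simpa using (hasDerivAt_id φ).const_mul 2
  have h2 := ((Real.hasDerivAt_sin φ).const_mul (κ * (2 * r₁ + r₂))).fun_add
    (h1.sin.const_mul (κ * r₂ / 4))
  refine h2.congr_deriv ?_
  unfold gw'
  ring

lemma abs_gw_le {κ r₁ r₂ : ℝ} (hκ : 0 ≤ κ) (hr₁ : 0 ≤ r₁) (hr₂ : 0 ≤ r₂) (hr : r₁ + r₂ ≤ 1)
    (φ : ℝ) : |gw κ r₁ r₂ φ| ≤ 2 * κ := by
  have h1 := Real.abs_sin_le_one φ
  have h2 := Real.abs_sin_le_one (2 * φ)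
  unfold gw
  calc _ ≤ |κ * (2 * r₁ + r₂) * Real.sin φ| + |κ * r₂ / 4 * Real.sin (2 * φ)| := abs_add_le _ _
    _ = κ * (2 * r₁ + r₂) * |Real.sin φ| + κ * r₂ / 4 * |Real.sin (2 * φ)| := by
      rw [abs_mul, abs_mul (κ * r₂ / 4), abs_of_nonneg (by positivity : 0 ≤ κ * (2 * r₁ + r₂)),
        abs_of_nonneg (by positivity : 0 ≤ κ * r₂ / 4)]
    _ ≤ κ * (2 * r₁ + r₂) * 1 + κ * r₂ / 4 * 1 := by gcongr
    _ ≤ 2 * κ := by nlinarith

lemma abs_gw'_le {κ r₁ r₂ : ℝ} (hκ : 0 ≤ κ) (hr₁ : 0 ≤ r₁) (hr₂ : 0 ≤ r₂) (hr : r₁ + r₂ ≤ 1)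
    (φ : ℝ) : |gw' κ r₁ r₂ φ| ≤ 2 * κ := by
  have h1 := Real.abs_cos_le_one φ
  have h2 := Real.abs_cos_le_one (2 * φ)
  unfold gw'
  calc _ ≤ |κ * (2 * r₁ + r₂) * Real.cos φ| + |κ * r₂ / 2 * Real.cos (2 * φ)| := abs_add_le _ _
    _ = κ * (2 * r₁ + r₂) * |Real.cos φ| + κ * r₂ / 2 * |Real.cos (2 * φ)| := by
      rw [abs_mul, abs_mul (κ * r₂ / 2), abs_of_nonneg (by positivity : 0 ≤ κ * (2 * r₁ + r₂)),
        abs_of_nonneg (by positivity : 0 ≤ κ * r₂ / 2)]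
    _ ≤ κ * (2 * r₁ + r₂) * 1 + κ * r₂ / 2 * 1 := by gcongr
    _ ≤ 2 * κ := by nlinarith

lemma sin_diff (a b φ Δ : ℝ) (ha : |a - φ| ≤ Δ) (hb : |b - φ| ≤ Δ) :
    |(Real.sin a - Real.sin b) * (a - b) - Real.cos φ * (a - b) ^ 2| ≤ Δ * (a - b) ^ 2 := by
  have h1 : ‖(Real.sin a - Real.cos φ * a) - (Real.sin b - Real.cos φ * b)‖ ≤ Δ * ‖a - b‖ := by
    refine Convex.norm_image_sub_le_of_norm_hasDerivWithin_le
      (f := fun x => Real.sin x - Real.cos φ * x) (f' := fun x => Real.cos x - Real.cos φ)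
      (s := Icc (φ - Δ) (φ + Δ)) (fun x _ => ?_) (fun x hx => ?_) (convex_Icc _ _) ?_ ?_
    · have h2 := (Real.hasDerivAt_sin x).fun_sub ((hasDerivAt_id x).const_mul (Real.cos φ))
      exact (h2.congr_deriv (by ring)).hasDerivWithinAt
    · rw [Real.norm_eq_abs]
      refine (Real.abs_cos_sub_cos_le _ _).trans ?_
      rw [abs_le]
      constructor <;> linarith [hx.1, hx.2]
    · have := abs_le.1 hb
      constructor <;> linarith [this.1, this.2]
    · have := abs_le.1 ha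
      constructor <;> linarith [this.1, this.2]
  have h2 : (Real.sin a - Real.sin b) * (a - b) - Real.cos φ * (a - b) ^ 2 =
      ((Real.sin a - Real.cos φ * a) - (Real.sin b - Real.cos φ * b)) * (a - b) := by ring
  rw [h2, abs_mul, ← sq_abs (a - b), sq, ← mul_assoc]
  gcongr
  exact h1

/-- The contraction estimate. -/
lemma core {κ r₁ r₂ S φ e₁ Δ q D2 v γ : ℝ} (hκ : 0 < κ) (hr₁ : 0 ≤ r₁) (hr₂ : 0 ≤ r₂)
    (hr : r₁ + r₂ ≤ 1) (hS0 : 0 ≤ S) (hS2 : S ≤ 2) (hΔ : 0 ≤ Δ)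
    (hS : |S - (2 * r₁ + r₂ * (1 + Real.cos φ))| ≤ e₁) (hD2 : 0 ≤ D2)
    (hq : |q - Real.cos φ * D2| ≤ Δ * D2) (hv : |v - 1| ≤ γ + 2 * κ) :
    -(κ * S * q) + gw' κ r₁ r₂ φ * v * D2 ≤
      κ * (-(r₂ / 2) + e₁ + 2 * Δ + 2 * γ + 4 * κ) * D2 := by
  have h1 : -(κ * S * q) ≤ -(κ * S * Real.cos φ * D2) + 2 * κ * Δ * D2 := by
    have a1 := (abs_le.1 hq).1
    have a2 : κ * S * (-(q - Real.cos φ * D2)) ≤ κ * S * (Δ * D2) :=
      mul_le_mul_of_nonneg_left (by linarith) (by positivity)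
    have a3 : κ * S * (Δ * D2) ≤ κ * 2 * (Δ * D2) := by gcongr
    nlinarith
  have h2 : -(κ * S * Real.cos φ) ≤ -(κ * (2 * r₁ + r₂ * (1 + Real.cos φ)) * Real.cos φ) +
      κ * e₁ := by
    have a1 : |(S - (2 * r₁ + r₂ * (1 + Real.cos φ))) * Real.cos φ| ≤ e₁ := by
      rw [abs_mul]
      calc _ ≤ e₁ * 1 := by
            apply mul_le_mul hS (Real.abs_cos_le_one φ) (abs_nonneg _)
            exact (abs_nonneg _).trans hS
        _ = e₁ := mul_one _
    have a2 := (abs_le.1 a1).1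
    have a3 : κ * (-((S - (2 * r₁ + r₂ * (1 + Real.cos φ))) * Real.cos φ)) ≤ κ * e₁ :=
      mul_le_mul_of_nonneg_left (by linarith) hκ.le
    nlinarith
  have h3 : gw' κ r₁ r₂ φ * v ≤ gw' κ r₁ r₂ φ + κ * (2 * γ + 4 * κ) := by
    have a1 : |gw' κ r₁ r₂ φ * (v - 1)| ≤ 2 * κ * (γ + 2 * κ) := by
      rw [abs_mul]
      exact mul_le_mul (abs_gw'_le hκ.le hr₁ hr₂ hr φ) hv (abs_nonneg _) (by positivity)
    have a2 := (abs_le.1 a1).2
    nlinarith
  have h4 : -(κ * (2 * r₁ + r₂ * (1 + Real.cos φ)) * Real.cos φ) + gw' κ r₁ r₂ φ =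
      κ * (-(r₂ / 2)) := by
    unfold gw'
    rw [Real.cos_two_mul]
    ring
  have h5 : -(κ * S * Real.cos φ) + gw' κ r₁ r₂ φ * v ≤
      κ * (-(r₂ / 2) + e₁ + 2 * γ + 4 * κ) := by nlinarith
  have h6 := mul_le_mul_of_nonneg_right h5 hD2
  nlinarith

/-! ### The dynamics -/

section Dynamics

variable {N : ℕ} {κ γ ρ₁ ρ₂ m : ℝ} {ω θ₀ : Fin N → ℝ} {θ : ℝ → Fin N → ℝ} {B C : Finset (Fin N)}

lemma IsSolution.deriv (h : IsSolution κ ω θ₀ θ) {t : ℝ} (ht : 0 ≤ t) (i : Fin N) :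
    HasDerivWithinAt (fun τ => θ τ i) (ω i - κ * mf (θ t) * Real.sin (θ t i)) (Ici 0) t := by
  rw [← rhs_eq]
  exact h.2 t ht i

lemma x_sin_x {x : ℝ} (hx : |x| ≤ 1) : x ^ 2 / 2 ≤ x * Real.sin x := by
  have hpi : 2 / Real.pi ≥ 1 / 2 := by
    rw [ge_iff_le, div_le_div_iff₀ (by norm_num) Real.pi_pos]
    linarith [Real.pi_le_four]
  have hpi2 : 1 ≤ Real.pi / 2 := by linarith [Real.pi_gt_three]
  have key : ∀ y : ℝ, 0 ≤ y → y ≤ 1 → y ^ 2 / 2 ≤ y * Real.sin y := by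
    intro y hy0 hy1
    have h1 := Real.mul_le_sin hy0 (hy1.trans hpi2)
    have h2 : 1 / 2 * y ≤ Real.sin y := le_trans (by gcongr) h1
    nlinarith
  rcases le_total 0 x with h | h
  · exact key x h ((le_abs_self x).trans hx)
  · have := key (-x) (by linarith) ((neg_le_abs x).trans hx)
    rw [Real.sin_neg] at this
    nlinarith

/-- The oscillators in `B` stay near `0`. -/
lemma death_bound (hN : 1 ≤ N) (hκ : 0 < κ) (hρ₁ : 0 < ρ₁) {β : ℝ} (hβ0 : 0 < β) (hβ1 : β ≤ 1)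
    (hγ : γ < κ * ρ₁ * β / 4) (hB : ρ₁ * N ≤ B.card) (hω : ∀ i ∈ B, ω i ∈ Icc (-γ) γ)
    (h0 : ∀ i ∈ B, θ₀ i = 0) (h : IsSolution κ ω θ₀ θ) :
    ∀ t, 0 ≤ t → ∀ i ∈ B, |θ t i| ≤ β := by
  have hb := bootstrap (fun (i : B) t => |θ t i|) β (fun i t ht =>
    ((h.deriv ht i).continuousWithinAt).abs) (fun i => by
      rw [h.1, h0 i i.2, abs_zero]; exact hβ0) (fun t ht hall i => by
      have hbar : θ t i ^ 2 ≤ (β / 2) ^ 2 := by
        refine barrier (y := fun s => θ s i ^ 2) (y' := fun s => 2 * θ s i *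
          (ω i - κ * mf (θ s) * Real.sin (θ s i))) ht ?_ ?_ ?_
        · intro s hs
          have := (h.deriv hs.1 i).fun_pow 2
          refine this.congr_deriv ?_
          simp
        · rw [h.1, h0 i i.2]
          show (0 : ℝ) ^ 2 ≤ (β / 2) ^ 2
          gcongr
          positivity
        · intro s hs hc
          have hsb : ∀ j ∈ B, |θ s j| ≤ 1 := fun j hj => (hall ⟨j, hj⟩ s hs).trans hβ1
          have hmf := mf_ge hN (θ s) B hB hsb
          have h1 := x_sin_x (hsb i i.2)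
          have habs : |θ s i| = β / 2 := by
            have := abs_eq_abs.2 ((sq_eq_sq_iff_eq_or_eq_neg).1 hc)
            rw [this, abs_of_pos (by positivity)]
          have h2 : θ s i * ω i ≤ β / 2 * γ := by
            have h3 : |θ s i * ω i| ≤ β / 2 * γ := by
              rw [abs_mul, habs]
              have := hω i i.2
              gcongr
              rw [abs_le]
              exact ⟨this.1, this.2⟩
            exact (abs_le.1 h3).2
          have h4 : κ * ρ₁ * (θ s i ^ 2 / 2) ≤ κ * mf (θ s) * (θ s i * Real.sin (θ s i)) := by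
            have := mf_nonneg (θ s)
            gcongr
          rw [hc] at h4
          have h5 : 2 * θ s i * (ω i - κ * mf (θ s) * Real.sin (θ s i)) =
              2 * (θ s i * ω i) - 2 * (κ * mf (θ s) * (θ s i * Real.sin (θ s i))) := by ring
          rw [h5]
          have h6 : β * γ < β * (κ * ρ₁ * β / 4) := by gcongr
          nlinarith
      have h7 : |θ t i| ≤ β / 2 := abs_le_of_sq_le_sq hbar (by positivity)
      linarith)
  exact fun t ht i hi => (hb t ht ⟨i, hi⟩).le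

/-- The oscillators in `C` stay together. -/
lemma lock_bound (hN : 1 ≤ N) (hκ : 0 < κ) (hρ₂ : 0 < ρ₂) (hBC : Disjoint B C)
    (hm0 : 0 < m) (hm : m = ρ₂ / 2 - 2 * (1 - ρ₁ - ρ₂)) (hm1 : m ≤ 1 / 2) (hκm : κ ≤ m / 32)
    (hγ0 : 0 ≤ γ) (hγ : γ ≤ κ * m ^ 2 / 400)
    (hB : ρ₁ * N ≤ B.card) (hC : ρ₂ * N ≤ C.card)
    (hω : ∀ i ∈ C, ω i ∈ Icc (1 - γ) (1 + γ)) (h0 : ∀ i ∈ C, θ₀ i = 0)
    (h : IsSolution κ ω θ₀ θ) (hdeath : ∀ t, 0 ≤ t → ∀ i ∈ B, |θ t i| ≤ m / 2) :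
    ∀ t, 0 ≤ t → ∀ i ∈ C, ∀ j ∈ C, |θ t i - θ t j| ≤ m / 24 := by
  have hN' : (0 : ℝ) < N := by exact_mod_cast hN
  set Δ : ℝ := m / 24 with hΔ
  have hΔ0 : 0 < Δ := by positivity
  set Y : ℝ := Δ / 2 * Real.exp (-(2 * κ)) with hY
  have hY0 : 0 < Y := by positivity
  have hCne : C.Nonempty := by
    rw [← Finset.card_pos]
    have : (0 : ℝ) < C.card := lt_of_lt_of_le (by positivity) hC
    exact_mod_cast this
  obtain ⟨r, hr⟩ := hCne
  set r₁ : ℝ := B.card / N with hr₁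
  set r₂ : ℝ := C.card / N with hr₂
  have hr₁0 : 0 ≤ r₁ := by positivity
  have hr₂0 : 0 ≤ r₂ := by positivity
  have hr12 : r₁ + r₂ ≤ 1 := by
    rw [hr₁, hr₂, ← add_div, div_le_one hN']
    have h1 := Finset.card_le_univ (B ∪ C)
    rw [Finset.card_union_of_disjoint hBC, Fintype.card_fin] at h1
    exact_mod_cast h1
  have hr₂ρ : ρ₂ ≤ r₂ := by rw [hr₂, le_div_iff₀ hN']; exact hC
  have hκ1 : κ ≤ 1 / 64 := by linarith
  have hm2 : m ^ 2 ≤ 1 / 4 := by nlinarith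
  have hγ1 : γ ≤ m / 32 := by nlinarith
  have hb := bootstrap (fun (p : C × C) t => |θ t p.1 - θ t p.2|) Δ (fun p t ht =>
    ((h.deriv ht p.1).continuousWithinAt.sub (h.deriv ht p.2).continuousWithinAt).abs)
    (fun p => by
      rw [h.1, h0 p.1 p.1.2, h0 p.2 p.2.2, sub_zero, abs_zero]; exact hΔ0) (fun t ht hall p => by
      have hbar : ((θ t p.1 - θ t p.2) * Real.exp (gw κ r₁ r₂ (θ t r))) ^ 2 ≤ Y ^ 2 := by
        refine barrier (y := fun s => ((θ s p.1 - θ s p.2) *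
          Real.exp (gw κ r₁ r₂ (θ s r))) ^ 2)
          (y' := fun s => 2 * Real.exp (gw κ r₁ r₂ (θ s r)) ^ 2 *
            ((θ s p.1 - θ s p.2) * (ω p.1 - ω p.2) +
              (-(κ * mf (θ s) * ((Real.sin (θ s p.1) - Real.sin (θ s p.2)) *
                (θ s p.1 - θ s p.2))) +
              gw' κ r₁ r₂ (θ s r) * (ω r - κ * mf (θ s) * Real.sin (θ s r)) *
                (θ s p.1 - θ s p.2) ^ 2))) ht ?_ ?_ ?_
        · intro s hs
          have h1 := (h.deriv hs.1 p.1).fun_sub (h.deriv hs.1 p.2)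
          have h2 := ((hasDerivAt_gw κ r₁ r₂ (θ s r)).comp_hasDerivWithinAt s (h.deriv hs.1 r)).exp
          have h3 := (h1.fun_mul h2).fun_pow 2
          refine h3.congr_deriv ?_
          simp only [Function.comp, Nat.add_one_sub_one, pow_one, Nat.cast_ofNat]
          ring
        · rw [h.1, h0 p.1 p.1.2, h0 p.2 p.2.2, sub_zero, zero_mul]
          gcongr
        · intro s hs hc
          set D : ℝ := θ s p.1 - θ s p.2 with hD
          set g : ℝ := gw κ r₁ r₂ (θ s r) with hg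
          have hgb : |g| ≤ 2 * κ := abs_gw_le hκ.le hr₁0 hr₂0 hr12 _
          have hgb' := abs_le.1 hgb
          have hDabs : |D| * Real.exp g = Y := by
            have := abs_eq_abs.2 ((sq_eq_sq_iff_eq_or_eq_neg).1 hc)
            rw [abs_mul, abs_of_pos (Real.exp_pos g), abs_of_pos hY0] at this
            exact this
          have hDlow : Δ / 4 ≤ |D| := by
            have h1 : |D| * Real.exp g ≤ |D| * Real.exp (2 * κ) := by
              gcongr
              exact hgb'.2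
            rw [hDabs, hY] at h1
            have h2 : Δ / 2 * Real.exp (-(2 * κ)) * Real.exp (-(2 * κ)) ≤
                |D| * Real.exp (2 * κ) * Real.exp (-(2 * κ)) := by gcongr
            rw [mul_assoc, mul_assoc, ← Real.exp_add, ← Real.exp_add] at h2
            have h3 : (2 * κ + -(2 * κ)) = 0 := by ring
            rw [h3, Real.exp_zero, mul_one] at h2
            have h4 : 1 / 2 ≤ Real.exp (-(2 * κ) + -(2 * κ)) := by
              have := Real.add_one_le_exp (-(2 * κ) + -(2 * κ))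
              linarith
            nlinarith
          have hmfS := mf_approx hN (θ s) hBC (φ := θ s r) (β := m / 2) hΔ0.le hB hC
            (hdeath s hs.1) (fun i hi => hall (⟨i, hi⟩, ⟨r, hr⟩) s hs)
          have hsin := sin_diff (θ s p.1) (θ s p.2) (θ s r) Δ
            (hall (p.1, ⟨r, hr⟩) s hs) (hall (p.2, ⟨r, hr⟩) s hs)
          have hmf0 := mf_nonneg (θ s)
          have hmf2 := mf_le_two hN (θ s)
          have hv : |ω r - κ * mf (θ s) * Real.sin (θ s r) - 1| ≤ γ + 2 * κ := by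
            have h1 := hω r hr
            have h2 : |κ * mf (θ s) * Real.sin (θ s r)| ≤ 2 * κ := by
              rw [abs_mul, abs_of_nonneg (by positivity : 0 ≤ κ * mf (θ s))]
              calc κ * mf (θ s) * |Real.sin (θ s r)| ≤ κ * 2 * 1 := by
                    gcongr
                    exact Real.abs_sin_le_one _
                _ = 2 * κ := by ring
            have h3 := abs_le.1 h2
            rw [abs_le]
            constructor <;> linarith [h1.1, h1.2, h3.1, h3.2]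
          have hcore := core (κ := κ) (r₁ := r₁) (r₂ := r₂) (S := mf (θ s)) (φ := θ s r)
            (D2 := D ^ 2) hκ hr₁0 hr₂0 hr12 hmf0 hmf2 hΔ0.le hmfS (sq_nonneg D) hsin hv
          have hbr : -(r₂ / 2) + ((m / 2) ^ 2 / 2 + Δ + 2 * (1 - ρ₁ - ρ₂)) + 2 * Δ + 2 * γ + 4 * κ ≤
              -(m / 2) := by
            have : (m / 2) ^ 2 / 2 ≤ m / 16 := by nlinarith
            rw [hΔ]
            linarith
          have h1 : κ * (-(r₂ / 2) + ((m / 2) ^ 2 / 2 + Δ + 2 * (1 - ρ₁ - ρ₂)) + 2 * Δ +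
              2 * γ + 4 * κ) * D ^ 2 ≤ κ * (-(m / 2)) * D ^ 2 := by gcongr
          have h2 : D * (ω p.1 - ω p.2) ≤ |D| * (2 * γ) := by
            have h3 : |D * (ω p.1 - ω p.2)| ≤ |D| * (2 * γ) := by
              rw [abs_mul]
              have a1 := hω p.1 p.1.2
              have a2 := hω p.2 p.2.2
              gcongr
              rw [abs_le]
              constructor <;> linarith [a1.1, a1.2, a2.1, a2.2]
            exact (abs_le.1 h3).2
          have hDpos : 0 < |D| := lt_of_lt_of_le (by positivity) hDlow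
          have h4 : |D| * (2 * γ) + κ * (-(m / 2)) * D ^ 2 < 0 := by
            rw [← sq_abs D]
            have h5 : 2 * γ < κ * (m / 2) * |D| := by
              have h6 : κ * (m / 2) * (Δ / 4) ≤ κ * (m / 2) * |D| := by gcongr
              have h7 : 2 * γ < κ * (m / 2) * (Δ / 4) := by
                rw [hΔ]
                have : 0 < κ * m ^ 2 := by positivity
                nlinarith
              linarith
            nlinarith
          have h5 : 0 < 2 * Real.exp g ^ 2 := by positivity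
          apply mul_neg_of_pos_of_neg h5
          linarith
      set g : ℝ := gw κ r₁ r₂ (θ t r) with hg
      have hgb' := abs_le.1 (abs_gw_le hκ.le hr₁0 hr₂0 hr12 (θ t r))
      have h1 : |θ t p.1 - θ t p.2| * Real.exp g ≤ Y := by
        have := abs_le_of_sq_le_sq hbar hY0.le
        rwa [abs_mul, abs_of_pos (Real.exp_pos g)] at this
      have h2 : |θ t p.1 - θ t p.2| * Real.exp (-(2 * κ)) ≤ Δ / 2 * Real.exp (-(2 * κ)) := by
        refine le_trans ?_ h1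
        gcongr
        linarith [hgb'.1]
      have h3 := le_of_mul_le_mul_right h2 (Real.exp_pos _)
      linarith)
  exact fun t ht i hi j hj => (hb t ht (⟨i, hi⟩, ⟨j, hj⟩)).le

/-- The oscillators in `C` rotate. -/
lemma rotate (hN : 1 ≤ N) (hκ : 0 < κ) (hκ1 : κ ≤ 1 / 64) (hγ : γ ≤ 1 / 64)
    (hω : ∀ i ∈ C, ω i ∈ Icc (1 - γ) (1 + γ)) (h0 : ∀ i ∈ C, θ₀ i = 0)
    (h : IsSolution κ ω θ₀ θ) {i : Fin N} (hi : i ∈ C) :
    ¬ Tendsto (fun t => θ t i / t) atTop (𝓝 0) := by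
  have hlow : ∀ t, 0 ≤ t → -θ t i ≤ -(1 / 4) * t := by
    intro t ht
    refine image_le_of_deriv_right_lt_deriv_boundary (f := fun s => -θ s i)
      (f' := fun s => -(ω i - κ * mf (θ s) * Real.sin (θ s i))) (a := 0) (b := t)
      (B := fun s => -(1 / 4) * s) (B' := fun _ => -(1 / 4)) ?_ ?_ ?_ ?_ ?_ ⟨ht, le_rfl⟩
    · intro s hs
      exact ((h.deriv hs.1 i).continuousWithinAt.neg).mono fun x hx => hx.1
    · intro s hs
      exact (h.deriv hs.1 i).fun_neg.mono (Ici_subset_Ici.2 hs.1)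
    · simp [h.1, h0 i hi]
    · intro x
      simpa using (hasDerivAt_id x).const_mul (-(1 / 4 : ℝ))
    · intro s hs _
      have h1 := hω i hi
      have h2 : |κ * mf (θ s) * Real.sin (θ s i)| ≤ 2 * κ := by
        have := mf_nonneg (θ s)
        rw [abs_mul, abs_of_nonneg (by positivity : 0 ≤ κ * mf (θ s))]
        calc κ * mf (θ s) * |Real.sin (θ s i)| ≤ κ * 2 * 1 := by
              gcongr
              · exact mf_le_two hN _
              · exact Real.abs_sin_le_one _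
          _ = 2 * κ := by ring
      have h3 := abs_le.1 h2
      linarith [h1.1, h3.2]
  intro hlim
  have h1 : (1 / 4 : ℝ) ≤ 0 := by
    refine ge_of_tendsto hlim ?_
    filter_upwards [eventually_gt_atTop 0] with t ht
    rw [le_div_iff₀ ht]
    linarith [hlow t ht.le]
  norm_num at h1

/-- Existence of solutions. -/
lemma exists_solution (hN : 1 ≤ N) (hκ : 0 < κ) (ω θ₀ : Fin N → ℝ) :
    ∃ θ, IsSolution κ ω θ₀ θ := by
  have hN' : (0 : ℝ) < N := by exact_mod_cast hN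
  set F : (Fin N → ℝ) → Fin N → ℝ := fun x i => ω i - κ * mf x * Real.sin (x i) with hF
  have hmf : ∀ x y : Fin N → ℝ, |mf x - mf y| ≤ ‖x - y‖ := by
    intro x y
    have e : mf x - mf y = (∑ j, (Real.cos (x j) - Real.cos (y j))) / N := by
      unfold mf
      rw [← sub_div, ← Finset.sum_sub_distrib]
      congr 1
      refine Finset.sum_congr rfl fun j _ => by ring
    rw [e, abs_div, abs_of_pos hN', div_le_iff₀ hN']
    calc |∑ j, (Real.cos (x j) - Real.cos (y j))| ≤ ∑ j, |Real.cos (x j) - Real.cos (y j)| :=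
          Finset.abs_sum_le_sum_abs _ _
      _ ≤ ∑ _j : Fin N, ‖x - y‖ := Finset.sum_le_sum fun j _ =>
          (Real.abs_cos_sub_cos_le _ _).trans (norm_le_pi_norm (x - y) j)
      _ = ‖x - y‖ * N := by simp [mul_comm]
  have hL : LipschitzWith ⟨3 * κ, by positivity⟩ F := by
    refine LipschitzWith.of_dist_le_mul fun x y => ?_
    rw [dist_eq_norm, dist_eq_norm]
    show ‖F x - F y‖ ≤ 3 * κ * ‖x - y‖
    rw [pi_norm_le_iff_of_nonneg (by positivity)]
    intro i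
    rw [Pi.sub_apply, Real.norm_eq_abs]
    have e : F x i - F y i = -(κ * ((mf x - mf y) * Real.sin (x i) +
        mf y * (Real.sin (x i) - Real.sin (y i)))) := by
      simp only [hF]; ring
    rw [e, abs_neg, abs_mul, abs_of_pos hκ]
    have h1 : |(mf x - mf y) * Real.sin (x i) + mf y * (Real.sin (x i) - Real.sin (y i))| ≤
        3 * ‖x - y‖ := by
      refine (abs_add_le _ _).trans ?_
      rw [abs_mul, abs_mul, abs_of_nonneg (mf_nonneg y)]
      have a1 := hmf x y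
      have a2 := Real.abs_sin_le_one (x i)
      have a3 : |Real.sin (x i) - Real.sin (y i)| ≤ ‖x - y‖ :=
        (Real.abs_sin_sub_sin_le _ _).trans (norm_le_pi_norm (x - y) i)
      have a4 := mf_le_two hN y
      calc |mf x - mf y| * |Real.sin (x i)| + mf y * |Real.sin (x i) - Real.sin (y i)| ≤
          ‖x - y‖ * 1 + 2 * ‖x - y‖ := by gcongr
        _ = 3 * ‖x - y‖ := by ring
    calc κ * _ ≤ κ * (3 * ‖x - y‖) := by gcongr
      _ = _ := by ring
  obtain ⟨θ, hθ0, hθ⟩ := Haraux.global_ode (fun _ => F) ⟨3 * κ, by positivity⟩ (fun _ => hL)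
    (hL.continuous.comp continuous_snd) θ₀
  refine ⟨θ, hθ0, fun t _ i => ?_⟩
  rw [rhs_eq]
  exact ((hasDerivAt_pi.1 (hθ t)) i).hasDerivWithinAt

end Dynamics

/-- **Partial oscillator death and partial locking coexist in the Winfree model.**

Let `ρ₁, ρ₂ > 0` with `ρ₁ + ρ₂ ≤ 1` and `m := ρ₂/2 - 2 (1 - ρ₁ - ρ₂) > 0`. Then for every coupling
strength `0 < κ ≤ m/32` and for `γ := κ ρ₁ m² / 400` the following holds. For every `N ≥ 1`, all
frequencies `ω` and all disjoint `B, C` with `|B| ≥ ρ₁ N`, `|C| ≥ ρ₂ N`, `|ω_i| ≤ γ` on `B` and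
`|ω_i - 1| ≤ γ` on `C`, there is an initial datum whose (existing) solution exhibits `B`-partial
oscillator death and `C`-partial oscillator locking. -/
theorem result (ρ₁ ρ₂ κ : ℝ) (hρ₁ : 0 < ρ₁) (hρ₂ : 0 < ρ₂) (hρ : ρ₁ + ρ₂ ≤ 1)
    (hm : 0 < ρ₂ / 2 - 2 * (1 - ρ₁ - ρ₂)) (hκ : 0 < κ)
    (hκm : κ ≤ (ρ₂ / 2 - 2 * (1 - ρ₁ - ρ₂)) / 32) :
    Good ρ₁ ρ₂ (κ * ρ₁ * (ρ₂ / 2 - 2 * (1 - ρ₁ - ρ₂)) ^ 2 / 400) κ := by
  intro N ω B C hN hBC hB hC hωB hωC
  set m : ℝ := ρ₂ / 2 - 2 * (1 - ρ₁ - ρ₂) with hmdef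
  set γ : ℝ := κ * ρ₁ * m ^ 2 / 400 with hγ
  have hm1 : m ≤ 1 / 2 := by rw [hmdef]; linarith
  have hρ₁1 : ρ₁ ≤ 1 := by linarith
  have hγ0 : 0 ≤ γ := by positivity
  have hγm : γ ≤ κ * m ^ 2 / 400 := by
    rw [hγ]
    have : κ * ρ₁ * m ^ 2 ≤ κ * 1 * m ^ 2 := by gcongr
    linarith
  have hκ1 : κ ≤ 1 / 64 := by linarith
  have hγ1 : γ ≤ 1 / 64 := by
    have : κ * m ^ 2 ≤ 1 / 64 * (1 / 2) ^ 2 := by gcongr
    linarith
  refine ⟨fun _ => 0, exists_solution hN hκ ω _, fun θ hθ => ?_⟩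
  have hd := death_bound (β := m / 2) hN hκ hρ₁ (by positivity) (by linarith) (by
    rw [hγ]
    have : 0 < κ * ρ₁ * m := by positivity
    nlinarith) hB hωB (fun _ _ => rfl) hθ
  have hl := lock_bound hN hκ hρ₂ hBC hm hmdef hm1 hκm hγ0 hγm hB hC hωC (fun _ _ => rfl) hθ hd
  exact ⟨fun i hi => ⟨m / 2, fun t ht => hd t ht i hi⟩,
    fun i hi j hj => ⟨m / 24, fun t ht => hl t ht i hi j hj⟩,
    fun i hi => rotate hN hκ hκ1 hγ1 hωC (fun _ _ => rfl) hθ hi⟩

end Pool.Agent.Results.MP_3a3e96_an.DeathAndLocking
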